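import Pool.Agent.N242.TG.Defs

/-!
# Project TG (helper242): tubular control for the explicit open set (helper721)
-/

set_option autoImplicit false
set_option maxHeartbeats 1000000

open MeasureTheory Metric
open scoped Pointwise

namespace Pool.Agent.N721.TG

open Pool.Agent.N242.TG

/-- The volume of a box with respect to an orthonormal basis. -/
theorem box_vol (b : OrthonormalBasis (Fin 3) ℝ (E 2)) (I : Fin 3 → Set ℝ)
    (hI : ∀ i, MeasurableSet (I i)) :
    volume {z : E 2 | ∀ i, inner ℝ (b i) z ∈ I i} = ∏ i, volume (I i) := by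
  have hm : MeasurableSet (Set.univ.pi I) := MeasurableSet.univ_pi hI
  have h1 : {z : E 2 | ∀ i, inner ℝ (b i) z ∈ I i} =
      b.repr ⁻¹' ((WithLp.ofLp : EuclideanSpace ℝ (Fin 3) → (Fin 3 → ℝ)) ⁻¹' (Set.univ.pi I)) := by
    ext z
    simp [b.repr_apply_apply]
  have h2 := PiLp.volume_preserving_ofLp (Fin 3)
  rw [h1, b.measurePreserving_repr.measure_preimage (h2.measurable hm).nullMeasurableSet,
    h2.measure_preimage hm.nullMeasurableSet, volume_pi_pi]

theorem exists_cos_sin {u v : ℝ} (h : u ^ 2 + v ^ 2 = 1) :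
    ∃ t : ℝ, Real.cos t = u ∧ Real.sin t = v := by
  set z : ℂ := ⟨u, v⟩ with hz
  have h1 : ‖z‖ = 1 := by
    rw [← sq_eq_sq₀ (norm_nonneg _) zero_le_one, one_pow, ← Complex.normSq_eq_norm_sq,
      Complex.normSq_apply]
    show u * u + v * v = 1
    linarith
  refine ⟨z.arg, ?_, ?_⟩
  · have := Complex.norm_mul_cos_arg z
    rwa [h1, one_mul] at this
  · have := Complex.norm_mul_sin_arg z
    rwa [h1, one_mul] at this

theorem norm_sub_le_angle (x y : Sph 2) : ‖(x : E 2) - y‖ ≤ gdist x y := by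
  have hx : ‖(x : E 2)‖ = 1 := by simpa using x.2
  have hy : ‖(y : E 2)‖ = 1 := by simpa using y.2
  have h0 : 0 ≤ gdist x y := InnerProductGeometry.angle_nonneg _ _
  rw [← sq_le_sq₀ (norm_nonneg _) h0, norm_sub_sq_real, hx, hy]
  have h1 : Real.cos (gdist x y) = inner ℝ (x : E 2) y := by
    unfold gdist
    rw [InnerProductGeometry.cos_angle, hx, hy]
    ring
  have h2 := Real.one_sub_sq_div_two_le_cos (x := gdist x y)
  rw [h1] at h2
  linarith

section circle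

variable {γ : Set (Sph 2)} {B : OrthonormalBasis (Fin 3) ℝ (E 2)}
  (hγ : Subtype.val '' γ = {x : E 2 | ∃ t : ℝ, x = Real.cos t • B 0 + Real.sin t • B 1})

include hγ

theorem tube_subset {R : ℝ} : tube γ R ⊆ {x : Sph 2 | |inner ℝ (B 2) (x : E 2)| < R} := by
  rintro x ⟨y, hy, hxy⟩
  have hy' : (y : E 2) ∈ Subtype.val '' γ := ⟨y, hy, rfl⟩
  rw [hγ] at hy'
  obtain ⟨t, ht⟩ := hy'
  have h1 : inner ℝ (B 2) (y : E 2) = 0 := by
    rw [ht, inner_add_right, inner_smul_right, inner_smul_right, B.inner_eq_zero (by decide),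
      B.inner_eq_zero (by decide)]
    ring
  have h2 : inner ℝ (B 2) (x : E 2) = inner ℝ (B 2) ((x : E 2) - y) := by
    rw [inner_sub_right, h1, sub_zero]
  show |inner ℝ (B 2) (x : E 2)| < R
  rw [h2]
  have h3 := abs_real_inner_le_norm (B 2) ((x : E 2) - y)
  rw [B.norm_eq_one, one_mul] at h3
  exact lt_of_le_of_lt (h3.trans (norm_sub_le_angle x y)) hxy

theorem subset_tube {R : ℝ} (hR : 0 < R) (hR1 : R ≤ 1) :
    {x : Sph 2 | |inner ℝ (B 2) (x : E 2)| < R / 4} ⊆ tube γ R := by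
  intro x hx
  have hx : |inner ℝ (B 2) (x : E 2)| < R / 4 := hx
  have hxn : ‖(x : E 2)‖ = 1 := by simpa using x.2
  obtain ⟨h, hh⟩ : ∃ h, h = inner ℝ (B 2) (x : E 2) := ⟨_, rfl⟩
  obtain ⟨u, hu⟩ : ∃ u, u = inner ℝ (B 0) (x : E 2) := ⟨_, rfl⟩
  obtain ⟨v, hv⟩ : ∃ v, v = inner ℝ (B 1) (x : E 2) := ⟨_, rfl⟩
  rw [← hh] at hx
  have hsum : u ^ 2 + v ^ 2 + h ^ 2 = 1 := by
    have h1 := B.sum_sq_norm_inner_right (x : E 2)
    rw [Fin.sum_univ_three, hxn, ← hu, ← hv, ← hh] at h1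
    simpa using h1
  have hh2 : h ^ 2 < (R / 4) ^ 2 := by
    rw [← sq_abs]
    exact pow_lt_pow_left₀ hx (abs_nonneg _) two_ne_zero
  have hpos : 0 < 1 - h ^ 2 := by nlinarith
  obtain ⟨ρ, hρ⟩ : ∃ ρ, ρ = Real.sqrt (1 - h ^ 2) := ⟨_, rfl⟩
  have hρ0 : 0 < ρ := by rw [hρ]; exact Real.sqrt_pos.2 hpos
  have hρ2 : ρ ^ 2 = 1 - h ^ 2 := by rw [hρ]; exact Real.sq_sqrt hpos.le
  have hρ1 : ρ ≤ 1 := by nlinarith [sq_nonneg h]
  obtain ⟨t, ht1, ht2⟩ := exists_cos_sin (u := u / ρ) (v := v / ρ) (by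
    rw [div_pow, div_pow, ← add_div, div_eq_one_iff_eq (pow_pos hρ0 2).ne', hρ2]
    linarith)
  have hyn : ‖Real.cos t • B 0 + Real.sin t • B 1‖ = 1 := by
    rw [← sq_eq_sq₀ (norm_nonneg _) zero_le_one, one_pow, ← real_inner_self_eq_norm_sq,
      inner_add_left, inner_add_right, inner_add_right]
    simp only [inner_smul_left, inner_smul_right, B.inner_eq_one,
      B.inner_eq_zero (show (0 : Fin 3) ≠ 1 by decide),
      B.inner_eq_zero (show (1 : Fin 3) ≠ 0 by decide)]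
    have := Real.cos_sq_add_sin_sq t
    simp only [conj_trivial]
    linarith
  refine ⟨⟨Real.cos t • B 0 + Real.sin t • B 1, by simpa using hyn⟩, ?_, ?_⟩
  · have h1 : Real.cos t • B 0 + Real.sin t • B 1 ∈ Subtype.val '' γ := by
      rw [hγ]
      exact ⟨t, rfl⟩
    obtain ⟨y, hy, hy'⟩ := h1
    have h2 : (⟨Real.cos t • B 0 + Real.sin t • B 1, by simpa using hyn⟩ : Sph 2) = y :=
      Subtype.ext hy'.symm
    rw [h2]
    exact hy
  · by_contra hcon
    push Not at hcon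
    have hpi := Real.pi_gt_three
    have h1 := Real.cos_le_cos_of_nonneg_of_le_pi hR.le
      (InnerProductGeometry.angle_le_pi (x : E 2) (Real.cos t • B 0 + Real.sin t • B 1)) hcon
    rw [InnerProductGeometry.cos_angle, hxn, hyn, inner_add_right, inner_smul_right,
      inner_smul_right, real_inner_comm, real_inner_comm (B 1), ← hu, ← hv, ht1, ht2] at h1
    have h2 : (u / ρ * u + v / ρ * v) / (1 * 1) = ρ := by
      rw [mul_one, div_one]
      have : u / ρ * u + v / ρ * v = (u ^ 2 + v ^ 2) / ρ := by ring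
      rw [this, div_eq_iff hρ0.ne']
      nlinarith
    rw [h2] at h1
    have h3 := Real.cos_bound (x := R) (by rw [abs_of_pos hR]; exact hR1)
    rw [abs_of_pos hR] at h3
    have h4 := (abs_le.1 h3).2
    have h5 : R ^ 4 ≤ R ^ 2 := by nlinarith [sq_nonneg R, sq_nonneg (R ^ 2), mul_le_one₀ hR1 hR.le hR1]
    have h6 : 1 - h ^ 2 ≤ ρ := by nlinarith
    nlinarith

end circle

theorem exists_p (ν : E 2) (h2 : 0 ≤ ν 2) :
    ∃ p : E 2, ‖p‖ = 1 ∧ inner ℝ p ν = 0 ∧ 0 ≤ p 0 ∧ p 1 = 4 * p 0 := by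
  obtain ⟨D, hD⟩ : ∃ D, D = ν 0 + 4 * ν 1 := ⟨_, rfl⟩
  obtain ⟨m, hm⟩ : ∃ m, m = 17 * ν 2 ^ 2 + D ^ 2 := ⟨_, rfl⟩
  have hm0 : 0 ≤ m := by rw [hm]; positivity
  rcases hm0.eq_or_lt with h | h
  · have h3 : ν 2 = 0 := by nlinarith [sq_nonneg D, sq_nonneg (ν 2)]
    refine ⟨!₂[0, 0, 1], ?_, ?_, ?_, ?_⟩
    · rw [EuclideanSpace.norm_eq, Fin.sum_univ_three]
      simp
    · rw [PiLp.inner_apply, Fin.sum_univ_three]
      simp [h3]
    · simp
    · simp
  · obtain ⟨n, hn⟩ : ∃ n, n = Real.sqrt m := ⟨_, rfl⟩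
    have hn0 : 0 < n := by rw [hn]; exact Real.sqrt_pos.2 h
    have hn2 : n ^ 2 = m := by rw [hn]; exact Real.sq_sqrt h.le
    refine ⟨!₂[ν 2 / n, 4 * (ν 2 / n), -(D / n)], ?_, ?_, ?_, ?_⟩
    · rw [← sq_eq_sq₀ (norm_nonneg _) zero_le_one, one_pow, EuclideanSpace.norm_sq_eq,
        Fin.sum_univ_three]
      simp only [Real.norm_eq_abs, sq_abs]
      show (ν 2 / n) ^ 2 + (4 * (ν 2 / n)) ^ 2 + (-(D / n)) ^ 2 = 1
      have : (ν 2 / n) ^ 2 + (4 * (ν 2 / n)) ^ 2 + (-(D / n)) ^ 2 =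
          (17 * ν 2 ^ 2 + D ^ 2) / n ^ 2 := by ring
      rw [this, ← hm, hn2, div_self h.ne']
    · rw [PiLp.inner_apply, Fin.sum_univ_three]
      show inner ℝ (ν 2 / n) (ν 0) + inner ℝ (4 * (ν 2 / n)) (ν 1) + inner ℝ (-(D / n)) (ν 2) = 0
      simp only [RCLike.inner_apply, conj_trivial]
      rw [hD]
      ring
    · show 0 ≤ ν 2 / n
      positivity
    · show 4 * (ν 2 / n) = 4 * (ν 2 / n)
      rfl

theorem measurable_S (ν : E 2) (R : ℝ) :
    MeasurableSet (Aset ∩ {x : Sph 2 | |inner ℝ ν (x : E 2)| < R}) := by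
  have hc : ∀ i : Fin 3, Continuous fun x : Sph 2 => (x : E 2) i := fun i => by fun_prop
  have h1 : IsOpen Aset := by
    unfold Aset
    refine IsOpen.union ?_ (IsOpen.and ?_ ?_)
    · exact isOpen_lt continuous_const (hc 2).abs
    · exact isOpen_lt continuous_const ((hc 0).mul (hc 1))
    · exact isOpen_lt (continuous_const.mul (hc 0).abs) (hc 1).abs
  have h2 : IsOpen {x : Sph 2 | |inner ℝ ν (x : E 2)| < R} :=
    isOpen_lt (by fun_prop) continuous_const
  exact (h1.inter h2).measurableSet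

theorem lower {ν : E 2} (hν : ‖ν‖ = 1) (h2 : 0 ≤ ν 2) {R : ℝ} (hR : 0 < R) (hR1 : R ≤ 1 / 25) :
    3 * (ENNReal.ofReal (1 / 4) * ENNReal.ofReal (1 / 100) * ENNReal.ofReal (R / 4)) ≤
      vol 2 (Aset ∩ {x : Sph 2 | |inner ℝ ν (x : E 2)| < R / 4}) := by
  obtain ⟨p, hp1, hp2, hp3, hp4⟩ := exists_p ν h2
  have hfr : Module.finrank ℝ (E 2) = Fintype.card (Fin 3) := by simp
  obtain ⟨b, hb⟩ := Orthonormal.exists_orthonormalBasis_extension_of_card_eq (𝕜 := ℝ) hfr
    (v := ![p, 0, ν]) (s := {0, 2}) (by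
      constructor
      · rintro ⟨i, hi⟩
        rcases hi with rfl | rfl
        · exact hp1
        · exact hν
      · rintro ⟨i, hi⟩ ⟨j, hj⟩ hij
        rcases hi with rfl | rfl <;> rcases hj with rfl | rfl
        · exact absurd rfl hij
        · exact hp2
        · show inner ℝ ν p = 0
          rw [real_inner_comm]
          exact hp2
        · exact absurd rfl hij)
  have hb0 : b 0 = p := hb 0 (by simp)
  have hb2 : b 2 = ν := hb 2 (by simp)
  set I : Fin 3 → Set ℝ := ![Set.Ioo (1 / 2) (3 / 4), Set.Ioo (-(1 / 200)) (1 / 200),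
    Set.Ioo (-(R / 8)) (R / 8)] with hI
  have hv := box_vol b I (by
    intro i
    fin_cases i <;> exact measurableSet_Ioo)
  rw [Fin.prod_univ_three] at hv
  have hv' : volume {z : E 2 | ∀ i, inner ℝ (b i) z ∈ I i} =
      ENNReal.ofReal (1 / 4) * ENNReal.ofReal (1 / 100) * ENNReal.ofReal (R / 4) := by
    rw [hv, hI]
    simp only [Matrix.cons_val_zero, Matrix.cons_val_one, Matrix.cons_val, Real.volume_Ioo]
    have e1 : (3 / 4 : ℝ) - 1 / 2 = 1 / 4 := by norm_num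
    have e2 : (1 / 200 : ℝ) - -(1 / 200) = 1 / 100 := by norm_num
    have e3 : R / 8 - -(R / 8) = R / 4 := by ring
    rw [e1, e2, e3]
  rw [← hv']
  unfold vol
  rw [Measure.toSphere_apply' _ (measurable_S ν (R / 4))]
  have hf3 : (Module.finrank ℝ (E 2) : ENNReal) = 3 := by
    rw [hfr]; simp
  rw [hf3]
  refine mul_le_mul_right (measure_mono ?_) _
  intro z hz
  have hz : ∀ i, inner ℝ (b i) z ∈ I i := hz
  obtain ⟨α, hα⟩ : ∃ α, α = inner ℝ (b 0) z := ⟨_, rfl⟩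
  obtain ⟨β, hβ⟩ : ∃ β, β = inner ℝ (b 1) z := ⟨_, rfl⟩
  obtain ⟨δ, hδ⟩ : ∃ δ, δ = inner ℝ (b 2) z := ⟨_, rfl⟩
  have z0 : α ∈ Set.Ioo (1 / 2 : ℝ) (3 / 4) := by rw [hα]; exact hz 0
  have z1 : β ∈ Set.Ioo (-(1 / 200) : ℝ) (1 / 200) := by rw [hβ]; exact hz 1
  have z2 : δ ∈ Set.Ioo (-(R / 8) : ℝ) (R / 8) := by rw [hδ]; exact hz 2
  have hnorm : ‖z‖ ^ 2 = α ^ 2 + β ^ 2 + δ ^ 2 := by
    have h1 := b.sum_sq_norm_inner_right z
    rw [Fin.sum_univ_three, ← hα, ← hβ, ← hδ] at h1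
    rw [← h1]
    simp
  have hzeq : z = α • p + β • b 1 + δ • ν := by
    have h1 := b.sum_repr z
    rw [Fin.sum_univ_three, b.repr_apply_apply, b.repr_apply_apply, b.repr_apply_apply, ← hα, ← hβ,
      ← hδ, hb0, hb2] at h1
    exact h1.symm
  have hcoord : ∀ i : Fin 3, |z i - α * p i| < 1 / 100 := by
    intro i
    have h1 : z i - α * p i = β * (b 1) i + δ * ν i := by
      conv_lhs => rw [hzeq]
      simp
      ring
    have h3 : |(b 1) i| ≤ 1 := by
      have := PiLp.norm_apply_le (b 1) i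
      rwa [b.norm_eq_one] at this
    have h4 : |ν i| ≤ 1 := by
      have := PiLp.norm_apply_le ν i
      rwa [hν] at this
    rw [h1]
    have h5 : |β| < 1 / 200 := abs_lt.2 ⟨z1.1, z1.2⟩
    have h6 : |δ| < 1 / 200 := abs_lt.2 ⟨by linarith [z2.1], by linarith [z2.2]⟩
    calc |β * (b 1) i + δ * ν i| ≤ |β * (b 1) i| + |δ * ν i| := abs_add_le _ _
      _ = |β| * |(b 1) i| + |δ| * |ν i| := by rw [abs_mul, abs_mul]
      _ ≤ |β| * 1 + |δ| * 1 := by gcongr
      _ < 1 / 100 := by linarith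
  obtain ⟨r, hr⟩ : ∃ r, r = ‖z‖ := ⟨_, rfl⟩
  rw [← hr] at hnorm
  have hr0' : 0 ≤ r := by rw [hr]; exact norm_nonneg _
  have hβ2 : β ^ 2 < (1 / 200) ^ 2 := by nlinarith [z1.1, z1.2]
  have hδ2 : δ ^ 2 < (1 / 200) ^ 2 := by nlinarith [z2.1, z2.2]
  have hr2 : 1 / 2 < r := by nlinarith [z0.1, sq_nonneg β, sq_nonneg δ]
  have hr3 : r < α + 1 / 100 := by
    by_contra hcon
    push Not at hcon
    nlinarith [z0.1]
  have hr0 : 0 < r := by linarith
  have hr1 : r < 1 := by linarith [z0.2]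
  have hxn : ‖r⁻¹ • z‖ = 1 := by
    rw [norm_smul, ← hr, norm_inv, Real.norm_of_nonneg hr0.le, inv_mul_cancel₀ hr0.ne']
  refine Set.mem_smul.2 ⟨r, ⟨hr0, hr1⟩, r⁻¹ • z, ⟨⟨r⁻¹ • z, by simpa using hxn⟩, ⟨?_, ?_⟩, rfl⟩, ?_⟩
  · -- in the set
    have hx : ∀ i : Fin 3, (r⁻¹ • z) i = z i / r := fun i => by
      show r⁻¹ * z i = z i / r
      rw [div_eq_inv_mul]
    have hpn : 17 * p 0 ^ 2 + p 2 ^ 2 = 1 := by
      have h1 := EuclideanSpace.norm_sq_eq p
      rw [hp1, Fin.sum_univ_three] at h1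
      simp only [Real.norm_eq_abs, sq_abs] at h1
      rw [hp4] at h1
      linarith
    have hc0 := abs_lt.1 (hcoord 0)
    have hc1 := abs_lt.1 (hcoord 1)
    have hc2 := abs_lt.1 (hcoord 2)
    unfold Aset
    by_cases hq : 95 / 100 < |p 2|
    · left
      show 9 / 10 < |(r⁻¹ • z) 2|
      rw [hx, abs_div, abs_of_pos hr0, lt_div_iff₀ hr0]
      rcases lt_abs.1 hq with h3 | h3
      · have h4 := le_abs_self (z 2)
        nlinarith [z0.1]
      · have h4 := neg_le_abs (z 2)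
        nlinarith [z0.1]
    · right
      push Not at hq
      have h3 : p 2 ^ 2 ≤ (95 / 100) ^ 2 := by
        rw [← sq_abs]
        exact pow_le_pow_left₀ (abs_nonneg _) hq 2
      have h4 : 3 / 40 < p 0 := by
        by_contra hcon
        push Not at hcon
        nlinarith
      have h5 : 3 / 80 < α * p 0 := by nlinarith [z0.1]
      have h6 : 0 < z 0 := by linarith [hc0.1]
      have h7 : 2 * z 0 < z 1 := by
        rw [hp4] at hc1
        nlinarith [hc1.1, hc0.2]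
      show 0 < (r⁻¹ • z) 0 * (r⁻¹ • z) 1 ∧ 2 * |(r⁻¹ • z) 0| < |(r⁻¹ • z) 1|
      rw [hx, hx]
      have h8 : 0 < z 1 := by linarith
      refine ⟨mul_pos (div_pos h6 hr0) (div_pos h8 hr0), ?_⟩
      rw [abs_of_pos (div_pos h6 hr0), abs_of_pos (div_pos h8 hr0), ← mul_div_assoc]
      exact div_lt_div_of_pos_right h7 hr0
  · show |inner ℝ ν (r⁻¹ • z)| < R / 4
    rw [inner_smul_right, ← hb2, ← hδ, abs_mul, abs_of_pos (inv_pos.2 hr0), ← div_eq_inv_mul,
      div_lt_iff₀ hr0]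
    have h3 : |δ| < R / 8 := abs_lt.2 z2
    nlinarith
  · show r • r⁻¹ • z = z
    rw [smul_smul, mul_inv_cancel₀ hr0.ne', one_smul]

theorem upper {B : OrthonormalBasis (Fin 3) ℝ (E 2)} {R : ℝ} (hR : 0 < R) :
    vol 2 {x : Sph 2 | |inner ℝ (B 2) (x : E 2)| < R} ≤
      3 * (ENNReal.ofReal 2 * ENNReal.ofReal 2 * ENNReal.ofReal (2 * R)) := by
  have hfr : Module.finrank ℝ (E 2) = Fintype.card (Fin 3) := by simp
  have hf3 : (Module.finrank ℝ (E 2) : ENNReal) = 3 := by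
    rw [hfr]; simp
  set I : Fin 3 → Set ℝ := ![Set.Icc (-1) 1, Set.Icc (-1) 1, Set.Ioo (-R) R] with hI
  have hv := box_vol B I (by
    intro i
    fin_cases i
    · exact measurableSet_Icc
    · exact measurableSet_Icc
    · exact measurableSet_Ioo)
  rw [Fin.prod_univ_three] at hv
  have hv' : volume {z : E 2 | ∀ i, inner ℝ (B i) z ∈ I i} =
      ENNReal.ofReal 2 * ENNReal.ofReal 2 * ENNReal.ofReal (2 * R) := by
    rw [hv, hI]
    simp only [Matrix.cons_val_zero, Matrix.cons_val_one, Matrix.cons_val, Real.volume_Ioo,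
      Real.volume_Icc]
    have e1 : (1 : ℝ) - -1 = 2 := by norm_num
    have e2 : R - -R = 2 * R := by ring
    rw [e1, e2]
  have hm : MeasurableSet {x : Sph 2 | |inner ℝ (B 2) (x : E 2)| < R} :=
    (isOpen_lt (by fun_prop) continuous_const).measurableSet
  rw [← hv']
  unfold vol
  rw [Measure.toSphere_apply' _ hm, hf3]
  refine mul_le_mul_right (measure_mono ?_) _
  intro z hz
  obtain ⟨r, ⟨hr0, hr1⟩, y, ⟨x, hx, rfl⟩, rfl⟩ := Set.mem_smul.1 hz
  have hx : |inner ℝ (B 2) (x : E 2)| < R := hx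
  have hxn : ‖(x : E 2)‖ = 1 := by simpa using x.2
  have hle : ∀ i, |inner ℝ (B i) (r • (x : E 2))| ≤ 1 := by
    intro i
    have h1 := abs_real_inner_le_norm (B i) (r • (x : E 2))
    rw [B.norm_eq_one, norm_smul, hxn, Real.norm_of_nonneg hr0.le] at h1
    linarith
  intro i
  fin_cases i
  · exact abs_le.1 (hle 0)
  · exact abs_le.1 (hle 1)
  · refine abs_lt.1 ?_
    show |inner ℝ (B 2) (r • (x : E 2))| < R
    rw [inner_smul_right, abs_mul, abs_of_pos hr0]
    nlinarith [abs_nonneg (inner ℝ (B 2) (x : E 2))]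

/-- **TGCC** -/
theorem t_tgcc : StTgcc := by
  refine ⟨1 / 25, by norm_num, 1 / 12800, by norm_num, ?_⟩
  rintro γ ⟨a, b, ha, hb, hab, hγ⟩ lam hlam
  obtain ⟨R, hRdef⟩ : ∃ R, R = 1 / 25 * lam ^ (-(1 / 2) : ℝ) := ⟨_, rfl⟩
  rw [← hRdef]
  have hR : 0 < R := by
    rw [hRdef]
    have := Real.rpow_pos_of_pos (show 0 < lam by linarith) (-(1 / 2) : ℝ)
    positivity
  have hR1 : R ≤ 1 / 25 := by
    rw [hRdef]
    have := Real.rpow_le_one_of_one_le_of_nonpos hlam (show (-(1 / 2) : ℝ) ≤ 0 by norm_num)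
    linarith
  have hfr : Module.finrank ℝ (E 2) = Fintype.card (Fin 3) := by simp
  obtain ⟨B, hB⟩ := Orthonormal.exists_orthonormalBasis_extension_of_card_eq (𝕜 := ℝ) hfr
    (v := ![a, b, 0]) (s := {0, 1}) (by
      constructor
      · rintro ⟨i, hi⟩
        rcases hi with rfl | rfl
        · exact ha
        · exact hb
      · rintro ⟨i, hi⟩ ⟨j, hj⟩ hij
        rcases hi with rfl | rfl <;> rcases hj with rfl | rfl
        · exact absurd rfl hij
        · exact hab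
        · show inner ℝ b a = 0
          rw [real_inner_comm]
          exact hab
        · exact absurd rfl hij)
  have hB0 : B 0 = a := hB 0 (by simp)
  have hB1 : B 1 = b := hB 1 (by simp)
  rw [← hB0, ← hB1] at hγ
  have h1 : vol 2 (tube γ R) ≤ _ := (measure_mono (tube_subset hγ)).trans (upper hR)
  have h2 : 3 * (ENNReal.ofReal (1 / 4) * ENNReal.ofReal (1 / 100) * ENNReal.ofReal (R / 4)) ≤
      vol 2 (Aset ∩ tube γ R) := by
    have h3 : 3 * (ENNReal.ofReal (1 / 4) * ENNReal.ofReal (1 / 100) * ENNReal.ofReal (R / 4)) ≤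
        vol 2 (Aset ∩ {x : Sph 2 | |inner ℝ (B 2) (x : E 2)| < R / 4}) := by
      rcases le_total 0 ((B 2) 2) with h | h
      · exact lower (B.norm_eq_one 2) h hR hR1
      · have h4 := lower (ν := -(B 2)) (by rw [norm_neg]; exact B.norm_eq_one 2)
          (by
            show 0 ≤ -((B 2) 2)
            linarith) hR hR1
        have h5 : {x : Sph 2 | |inner ℝ (-(B 2)) (x : E 2)| < R / 4} =
            {x : Sph 2 | |inner ℝ (B 2) (x : E 2)| < R / 4} := by
          ext x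
          simp only [Set.mem_ofPred_eq, inner_neg_left, abs_neg]
        rwa [h5] at h4
    refine h3.trans (measure_mono (Set.inter_subset_inter_right _ ?_))
    exact subset_tube hγ hR (by linarith)
  refine (mul_le_mul_right h1 _).trans (le_trans (le_of_eq ?_) h2)
  have e3 : (3 : ENNReal) = ENNReal.ofReal 3 := by simp
  rw [e3, ← ENNReal.ofReal_mul (by norm_num), ← ENNReal.ofReal_mul (by norm_num),
    ← ENNReal.ofReal_mul (by norm_num), ← ENNReal.ofReal_mul (by norm_num),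
    ← ENNReal.ofReal_mul (by norm_num), ← ENNReal.ofReal_mul (by norm_num),
    ← ENNReal.ofReal_mul (by norm_num)]
  congr 1
  ring

end Pool.Agent.N721.TG
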